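import Mathlib
import Pool.Agent.Lib.helper16.BdA

namespace Pool.Agent.Results.MP_c32163_co.Counter
open Matrix Pool.Agent.Lib.helper16.BdA

/-- designs in `D(v,b,k)`, given by the incidence matrix `n_{iB}` (blocks are multisets of size `k`) -/
abbrev Design (v b k : ℕ) : Type := {N : Matrix (Fin v) (Fin b) ℕ // ∀ B, ∑ i, N i B = k}

variable {v b k : ℕ}

/-- the replication `r_i` -/
def rep (d : Design v b k) (i : Fin v) : ℕ := ∑ B, d.1 i B

/-- the concurrence `λ_ij` -/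
def conc (d : Design v b k) (i j : Fin v) : ℕ := ∑ B, d.1 i B * d.1 j B

/-- the information matrix `C = R - k⁻¹ N Nᵀ` -/
noncomputable def info (d : Design v b k) : Matrix (Fin v) (Fin v) ℝ :=
  diagonal (fun i => (rep d i : ℝ)) -
    (k : ℝ)⁻¹ • (d.1.map (fun n : ℕ => (n : ℝ)) * (d.1.map (fun n : ℕ => (n : ℝ)))ᵀ)

/-- the concurrence graph is connected -/
def Conn (d : Design v b k) : Prop := (SimpleGraph.fromRel fun i j => 0 < conc d i j).Connected

/-- the non-trivial eigenvalues of `C`: all eigenvalues, with multiplicity, minus one zero -/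
noncomputable def theta (d : Design v b k) : Multiset ℝ := (info d).charpoly.roots.erase 0

/-- A-optimal in `D(v,b,k)` -/
def AOpt (d : Design v b k) : Prop :=
  Conn d ∧ ∀ d' : Design v b k, Conn d' →
    ((theta d).map fun x : ℝ => (1 : ℝ) / x).sum ≤ ((theta d').map fun x : ℝ => (1 : ℝ) / x).sum

/-- D-optimal in `D(v,b,k)` -/
def DOpt (d : Design v b k) : Prop :=
  Conn d ∧ ∀ d' : Design v b k, Conn d' → (theta d').prod ≤ (theta d).prod

/-- E-optimal in `D(v,b,k)` -/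
def EOpt (d : Design v b k) : Prop :=
  Conn d ∧ ∀ d' : Design v b k, Conn d' → sInf {x | x ∈ theta d'} ≤ sInf {x | x ∈ theta d}

/-- the values `(e_i - e_j)ᵀ C⁻ (e_i - e_j)` over all generalised inverses `C⁻` of `C` -/
def pv (d : Design v b k) (i j : Fin v) : Set ℝ :=
  {x | ∃ G : Matrix (Fin v) (Fin v) ℝ, info d * G * info d = info d ∧
    x = (Pi.single i 1 - Pi.single j 1) ⬝ᵥ G *ᵥ (Pi.single i 1 - Pi.single j 1)}

lemma conc_comm (d : Design v b k) (i j : Fin v) : conc d i j = conc d j i := by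
  simp [conc, mul_comm]

lemma sum_conc (d : Design v b k) (i : Fin v) : ∑ j, conc d i j = rep d i * k := by
  unfold conc rep
  rw [Finset.sum_comm, Finset.sum_mul]
  refine Finset.sum_congr rfl fun B _ => ?_
  rw [← Finset.mul_sum, d.2 B]

lemma sum_rep (d : Design v b k) : ∑ i, rep d i = b * k := by
  unfold rep
  rw [Finset.sum_comm]
  simp [d.2]

lemma rep_le (d : Design v b k) (i : Fin v) : rep d i ≤ conc d i i :=
  Finset.sum_le_sum fun B _ => Nat.le_mul_self _

lemma info_apply (d : Design v b k) (i j : Fin v) :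
    info d i j = (if i = j then (rep d i : ℝ) else 0) - (k : ℝ)⁻¹ * conc d i j := by
  simp [info, conc, diagonal_apply, mul_apply]

lemma info_herm (d : Design v b k) : (info d).IsHermitian := by
  ext i j
  simp only [conjTranspose_apply, star_trivial, info_apply, conc_comm d j i]
  by_cases h : i = j
  · subst h; rfl
  · simp [h, Ne.symm h]

lemma info5 (d : Design 5 b 2) : info d = (2 : ℝ)⁻¹ •
    !![(conc d 0 1 + conc d 0 2 + conc d 0 3 + conc d 0 4 : ℝ), -conc d 0 1, -conc d 0 2, -conc d 0 3, -conc d 0 4;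
      -conc d 0 1, conc d 0 1 + conc d 1 2 + conc d 1 3 + conc d 1 4, -conc d 1 2, -conc d 1 3, -conc d 1 4;
      -conc d 0 2, -conc d 1 2, conc d 0 2 + conc d 1 2 + conc d 2 3 + conc d 2 4, -conc d 2 3, -conc d 2 4;
      -conc d 0 3, -conc d 1 3, -conc d 2 3, conc d 0 3 + conc d 1 3 + conc d 2 3 + conc d 3 4, -conc d 3 4;
      -conc d 0 4, -conc d 1 4, -conc d 2 4, -conc d 3 4, conc d 0 4 + conc d 1 4 + conc d 2 4 + conc d 3 4] := by
  have h : ∀ i, (rep d i : ℝ) = (conc d i 0 + conc d i 1 + conc d i 2 + conc d i 3 + conc d i 4) / 2 := by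
    intro i
    have := sum_conc d i
    rw [Fin.sum_univ_five] at this
    have h2 : ((conc d i 0 + conc d i 1 + conc d i 2 + conc d i 3 + conc d i 4 : ℕ) : ℝ) = (rep d i * 2 : ℕ) := by
      rw [this]
    push_cast at h2
    linarith
  ext i j
  rw [info_apply, h]
  fin_cases i <;> fin_cases j <;>
    simp [conc_comm d 1 0, conc_comm d 2 0, conc_comm d 3 0, conc_comm d 4 0, conc_comm d 2 1,
      conc_comm d 3 1, conc_comm d 4 1, conc_comm d 3 2, conc_comm d 4 2, conc_comm d 4 3] <;> ring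

lemma sum_le (d : Design 5 b 2) : conc d 0 1 + conc d 0 2 + conc d 0 3 + conc d 0 4 + conc d 1 2 +
    conc d 1 3 + conc d 1 4 + conc d 2 3 + conc d 2 4 + conc d 3 4 ≤ b := by
  have h0 := sum_conc d 0
  have h1 := sum_conc d 1
  have h2 := sum_conc d 2
  have h3 := sum_conc d 3
  have h4 := sum_conc d 4
  have h := sum_rep d
  have r0 := rep_le d 0
  have r1 := rep_le d 1
  have r2 := rep_le d 2
  have r3 := rep_le d 3
  have r4 := rep_le d 4
  rw [Fin.sum_univ_five] at h0 h1 h2 h3 h4 h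
  simp only [conc_comm d 1 0, conc_comm d 2 0, conc_comm d 3 0, conc_comm d 4 0, conc_comm d 2 1,
      conc_comm d 3 1, conc_comm d 4 1, conc_comm d 3 2, conc_comm d 4 2, conc_comm d 4 3] at *
  omega

/-- the symmetric function `F` evaluated at the ten concurrences -/
def ev (F : ℕ → ℕ → ℕ → ℕ → ℕ → ℕ → ℕ → ℕ → ℕ → ℕ → ℕ) (d : Design 5 b 2) : ℕ :=
  F (conc d 0 1) (conc d 0 2) (conc d 0 3) (conc d 0 4) (conc d 1 2) (conc d 1 3) (conc d 1 4)
    (conc d 2 3) (conc d 2 4) (conc d 3 4)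

lemma theta5 (d : Design 5 b 2) : ∃ x y z w : ℝ, theta d = {x, y, z, w} ∧
    x + y + z + w = ev E1 d / 2 ∧ x * y + x * z + x * w + y * z + y * w + z * w = ev E2 d / 4 ∧
    x * y * z + x * y * w + x * z * w + y * z * w = ev E3 d / 8 ∧ x * y * z * w = ev E4 d / 16 := by
  have hs := (info_herm d).splits_charpoly
  have hm := (info d).charpoly_monic
  have hev : ∀ t : ℝ, (info d).charpoly.eval t = t * (t ^ 4 - (ev E1 d : ℝ) / 2 * t ^ 3 +
      (ev E2 d : ℝ) / 4 * t ^ 2 - (ev E3 d : ℝ) / 8 * t + (ev E4 d : ℝ) / 16) := fun t => by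
    rw [Matrix.eval_charpoly, info5, detL]; rfl
  have hcard : (info d).charpoly.roots.card = 5 := by
    rw [← hs.natDegree_eq_card_roots, Matrix.charpoly_natDegree_eq_dim]; simp
  have h0 : (0 : ℝ) ∈ (info d).charpoly.roots := by
    rw [Polynomial.mem_roots hm.ne_zero, Polynomial.IsRoot, hev]; simp
  have hc4 : (theta d).card = 4 := by
    rw [theta, Multiset.card_erase_of_mem h0, hcard]; rfl
  obtain ⟨x, y, z, w, hθ⟩ := Multiset.card_eq_four.1 hc4
  have hr : (info d).charpoly.roots = 0 ::ₘ {x, y, z, w} := by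
    rw [← hθ, theta, Multiset.cons_erase h0]
  have key : ∀ t : ℝ, t * (t ^ 4 - (x + y + z + w) * t ^ 3 +
      (x * y + x * z + x * w + y * z + y * w + z * w) * t ^ 2 -
      (x * y * z + x * y * w + x * z * w + y * z * w) * t + x * y * z * w) =
      t * (t ^ 4 - (ev E1 d : ℝ) / 2 * t ^ 3 +
      (ev E2 d : ℝ) / 4 * t ^ 2 - (ev E3 d : ℝ) / 8 * t + (ev E4 d : ℝ) / 16) := fun t => by
    rw [← hev, hs.eval_eq_prod_roots_of_monic hm, hr]
    simp only [Multiset.insert_eq_cons, Multiset.map_cons, Multiset.prod_cons,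
      Multiset.map_singleton, Multiset.prod_singleton]
    ring
  refine ⟨x, y, z, w, hθ, ?_⟩
  have k1 := key 1
  have k2 := key (-1)
  have k3 := key 2
  have k4 := key (-2)
  generalize x + y + z + w = s1 at *
  generalize x * y + x * z + x * w + y * z + y * w + z * w = s2 at *
  generalize x * y * z + x * y * w + x * z * w + y * z * w = s3 at *
  generalize x * y * z * w = s4 at *
  norm_num at k1 k2 k3 k4
  refine ⟨by linarith, by linarith, by linarith, by linarith⟩

lemma cut_false (d : Design v b k) (hd : Conn d) (S : Fin v → Bool) (i j : Fin v) (hi : S i = true)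
    (hj : S j = false) (h : ∀ x y, S x = true → S y = false → conc d x y = 0) : False := by
  obtain ⟨w⟩ := hd.preconnected i j
  induction w with
  | nil => simp [hi] at hj
  | @cons a c e hac w ih =>
    cases hc : S c with
    | true => exact ih hc hj
    | false =>
      have h1 := h a c hi hc
      rw [SimpleGraph.fromRel_adj, conc_comm d c a, h1] at hac
      simp at hac

lemma E4_pos (d : Design 5 b 2) (hb : b ≤ 7) (hd : Conn d) : 1 ≤ ev E4 d := by
  have hg := all_good _ _ _ _ _ _ _ _ _ _ ((sum_le d).trans hb)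
  simp only [good, Bool.and_eq_true, Bool.or_eq_true, Nat.ble_eq] at hg
  rcases hg.2 with h | h
  · exact h
  exfalso
  have c10 := conc_comm d 1 0
  have c20 := conc_comm d 2 0
  have c30 := conc_comm d 3 0
  have c21 := conc_comm d 2 1
  have c31 := conc_comm d 3 1
  have c32 := conc_comm d 3 2
  have fin : ∀ (S : Fin 5 → Bool) (i : Fin 5), S i = true → S 4 = false →
      (∀ x y, S x = true → S y = false → conc d x y = 0) → False :=
    fun S i hi hj h => cut_false d hd S i 4 hi hj h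
  simp only [cut, Bool.or_eq_true, Nat.beq_eq] at h
  rcases h with (((((((((((((h | h) | h) | h) | h) | h) | h) | h) | h) | h) | h) | h) | h) | h) | h
  · refine fin ![true, false, false, false, false] 0 rfl rfl fun x y => ?_
    fin_cases x <;> fin_cases y <;> simp <;> omega
  · refine fin ![false, true, false, false, false] 1 rfl rfl fun x y => ?_
    fin_cases x <;> fin_cases y <;> simp <;> omega
  · refine fin ![true, true, false, false, false] 0 rfl rfl fun x y => ?_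
    fin_cases x <;> fin_cases y <;> simp <;> omega
  · refine fin ![false, false, true, false, false] 2 rfl rfl fun x y => ?_
    fin_cases x <;> fin_cases y <;> simp <;> omega
  · refine fin ![true, false, true, false, false] 0 rfl rfl fun x y => ?_
    fin_cases x <;> fin_cases y <;> simp <;> omega
  · refine fin ![false, true, true, false, false] 1 rfl rfl fun x y => ?_
    fin_cases x <;> fin_cases y <;> simp <;> omega
  · refine fin ![true, true, true, false, false] 0 rfl rfl fun x y => ?_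
    fin_cases x <;> fin_cases y <;> simp <;> omega
  · refine fin ![false, false, false, true, false] 3 rfl rfl fun x y => ?_
    fin_cases x <;> fin_cases y <;> simp <;> omega
  · refine fin ![true, false, false, true, false] 0 rfl rfl fun x y => ?_
    fin_cases x <;> fin_cases y <;> simp <;> omega
  · refine fin ![false, true, false, true, false] 1 rfl rfl fun x y => ?_
    fin_cases x <;> fin_cases y <;> simp <;> omega
  · refine fin ![true, true, false, true, false] 0 rfl rfl fun x y => ?_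
    fin_cases x <;> fin_cases y <;> simp <;> omega
  · refine fin ![false, false, true, true, false] 2 rfl rfl fun x y => ?_
    fin_cases x <;> fin_cases y <;> simp <;> omega
  · refine fin ![true, false, true, true, false] 0 rfl rfl fun x y => ?_
    fin_cases x <;> fin_cases y <;> simp <;> omega
  · refine fin ![false, true, true, true, false] 1 rfl rfl fun x y => ?_
    fin_cases x <;> fin_cases y <;> simp <;> omega
  · refine fin ![true, true, true, true, false] 0 rfl rfl fun x y => ?_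
    fin_cases x <;> fin_cases y <;> simp <;> omega

lemma E_le (d : Design 5 b 2) (hb : b ≤ 7) : sInf {x | x ∈ theta d} ≤ 1 := by
  obtain ⟨x, y, z, w, hθ, h1, h2, h3, h4⟩ := theta5 d
  have hg := all_good _ _ _ _ _ _ _ _ _ _ ((sum_le d).trans hb)
  simp only [good, ineq, Bool.and_eq_true, Bool.or_eq_true, Nat.ble_eq] at hg
  have hfin : BddBelow {x | x ∈ theta d} := (theta d).toFinset.finite_toSet.bddBelow.mono
    (fun x hx => by simpa using hx)
  by_contra hc
  push Not at hc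
  have hx : 0 < x - 1 := by linarith [csInf_le hfin (show x ∈ {x | x ∈ theta d} by simp [hθ])]
  have hy : 0 < y - 1 := by linarith [csInf_le hfin (show y ∈ {x | x ∈ theta d} by simp [hθ])]
  have hz : 0 < z - 1 := by linarith [csInf_le hfin (show z ∈ {x | x ∈ theta d} by simp [hθ])]
  have hw : 0 < w - 1 := by linarith [csInf_le hfin (show w ∈ {x | x ∈ theta d} by simp [hθ])]
  have p1 : 0 < (x - 1) + (y - 1) + (z - 1) + (w - 1) := by positivity
  have p2 : 0 < (x - 1) * (y - 1) + (x - 1) * (z - 1) + (x - 1) * (w - 1) + (y - 1) * (z - 1) +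
    (y - 1) * (w - 1) + (z - 1) * (w - 1) := by positivity
  have p3 : 0 < (x - 1) * (y - 1) * (z - 1) + (x - 1) * (y - 1) * (w - 1) +
    (x - 1) * (z - 1) * (w - 1) + (y - 1) * (z - 1) * (w - 1) := by positivity
  have p4 : 0 < (x - 1) * (y - 1) * (z - 1) * (w - 1) := by positivity
  rcases hg.1.1 with ((h | h) | h) | h
  · have h' : (ev E4 d : ℝ) + 4 * ev E2 d + 16 ≤ 2 * ev E3 d + 8 * ev E1 d := by exact_mod_cast h
    nlinarith
  · have h' : (ev E3 d : ℝ) + 12 * ev E1 d ≤ 4 * ev E2 d + 32 := by exact_mod_cast h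
    nlinarith
  · have h' : (ev E2 d : ℝ) + 24 ≤ 6 * ev E1 d := by exact_mod_cast h
    nlinarith
  · have h' : (ev E1 d : ℝ) ≤ 8 := by exact_mod_cast h
    nlinarith

lemma E_ge (d : Design 5 b 2) (h1 : 8 < ev E1 d) (h2 : 6 * ev E1 d ≤ ev E2 d + 24)
    (h3 : 4 * ev E2 d + 32 ≤ ev E3 d + 12 * ev E1 d)
    (h4 : 2 * ev E3 d + 8 * ev E1 d ≤ ev E4 d + 4 * ev E2 d + 16) : 1 ≤ sInf {x | x ∈ theta d} := by
  obtain ⟨x, y, z, w, hθ, k1, k2, k3, k4⟩ := theta5 d
  have h1' : (8 : ℝ) < ev E1 d := by exact_mod_cast h1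
  have h2' : (6 : ℝ) * ev E1 d ≤ ev E2 d + 24 := by exact_mod_cast h2
  have h3' : (4 : ℝ) * ev E2 d + 32 ≤ ev E3 d + 12 * ev E1 d := by exact_mod_cast h3
  have h4' : (2 : ℝ) * ev E3 d + 8 * ev E1 d ≤ ev E4 d + 4 * ev E2 d + 16 := by exact_mod_cast h4
  refine le_csInf ⟨x, by simp [hθ]⟩ fun t ht => ?_
  have h0 : (t - x) * (t - y) * (t - z) * (t - w) = 0 := by
    simp only [hθ, Multiset.insert_eq_cons, Multiset.mem_cons, Multiset.mem_singleton,
      Set.mem_ofPred_eq] at ht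
    rcases ht with rfl | rfl | rfl | rfl <;> simp
  by_contra hc
  push Not at hc
  obtain ⟨s, hs, rfl⟩ : ∃ s : ℝ, 0 < s ∧ t = 1 - s := ⟨1 - t, by linarith, by ring⟩
  have e : (1 - s - x) * (1 - s - y) * (1 - s - z) * (1 - s - w) =
      s ^ 4 + ((x + y + z + w) - 4) * s ^ 3 +
      ((x * y + x * z + x * w + y * z + y * w + z * w) - 3 * (x + y + z + w) + 6) * s ^ 2 +
      ((x * y * z + x * y * w + x * z * w + y * z * w) -
        2 * (x * y + x * z + x * w + y * z + y * w + z * w) + 3 * (x + y + z + w) - 4) * s +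
      (x * y * z * w - (x * y * z + x * y * w + x * z * w + y * z * w) +
        (x * y + x * z + x * w + y * z + y * w + z * w) - (x + y + z + w) + 1) := by ring
  rw [h0, k1, k2, k3, k4] at e
  have q1 : 0 ≤ ((ev E1 d : ℝ) / 2 - 4) * s ^ 3 := mul_nonneg (by linarith) (by positivity)
  have q2 : 0 ≤ ((ev E2 d : ℝ) / 4 - 3 * (ev E1 d / 2) + 6) * s ^ 2 :=
    mul_nonneg (by linarith) (by positivity)
  have q3 : 0 ≤ ((ev E3 d : ℝ) / 8 - 2 * (ev E2 d / 4) + 3 * (ev E1 d / 2) - 4) * s :=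
    mul_nonneg (by linarith) (by positivity)
  have q4 : 0 < s ^ 4 := by positivity
  linarith

lemma D_eq (d : Design 5 b 2) : (theta d).prod = ev E4 d / 16 := by
  obtain ⟨x, y, z, w, hθ, -, -, -, h4⟩ := theta5 d
  rw [hθ, ← h4]
  simp only [Multiset.insert_eq_cons, Multiset.prod_cons, Multiset.prod_singleton]
  ring

lemma A_eq (d : Design 5 b 2) (h : 1 ≤ ev E4 d) :
    ((theta d).map fun x : ℝ => (1 : ℝ) / x).sum = 2 * (ev E3 d : ℝ) / (ev E4 d : ℝ) := by
  obtain ⟨x, y, z, w, hθ, -, -, h3, h4⟩ := theta5 d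
  have h' : (1 : ℝ) ≤ ev E4 d := by exact_mod_cast h
  have hne : x * y * z * w ≠ 0 := by rw [h4]; positivity
  have hx : x ≠ 0 := fun h => hne (by simp [h])
  have hy : y ≠ 0 := fun h => hne (by simp [h])
  have hz : z ≠ 0 := fun h => hne (by simp [h])
  have hw : w ≠ 0 := fun h => hne (by simp [h])
  have e3 : (ev E3 d : ℝ) = 8 * (x * y * z + x * y * w + x * z * w + y * z * w) := by linarith
  have e4 : (ev E4 d : ℝ) = 16 * (x * y * z * w) := by linarith
  rw [hθ, e3, e4]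
  simp only [Multiset.insert_eq_cons, Multiset.map_cons, Multiset.sum_cons, Multiset.map_singleton,
    Multiset.sum_singleton]
  field_simp
  ring

lemma AD6 (d : Design 5 6 2) : 23 * ev E4 d ≤ 15 * ev E3 d ∧ ev E4 d ≤ 60 := by
  have hs := sum_le d
  have hg := all_good _ _ _ _ _ _ _ _ _ _ (hs.trans (by norm_num : 6 ≤ 7))
  simp only [good, ineq, Bool.and_eq_true, Bool.or_eq_true, Nat.ble_eq] at hg
  rcases hg.1.2 with h | h
  · omega
  · exact h

lemma pv_eq (d : Design v b k) (i j : Fin v) (G₀ : Matrix (Fin v) (Fin v) ℝ)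
    (hG : info d * G₀ * info d = info d) (z : Fin v → ℝ)
    (hz : info d *ᵥ z = Pi.single i 1 - Pi.single j 1) : pv d i j = {z i - z j} := by
  have hT : (info d)ᵀ = info d := by
    have := info_herm d
    rwa [IsHermitian, conjTranspose_eq_transpose_of_trivial] at this
  have key : ∀ G : Matrix (Fin v) (Fin v) ℝ, info d * G * info d = info d →
      (Pi.single i 1 - Pi.single j 1) ⬝ᵥ G *ᵥ (Pi.single i 1 - Pi.single j 1) = z i - z j := by
    intro G h
    have h1 : (info d *ᵥ z) ⬝ᵥ G *ᵥ (info d *ᵥ z) = z ⬝ᵥ (info d * G * info d) *ᵥ z := by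
      rw [← mulVec_mulVec, ← mulVec_mulVec, dotProduct_mulVec z (info d), ← mulVec_transpose, hT]
    rw [← hz, h1, h, hz, dotProduct_sub]
    simp
  ext x
  simp only [pv, Set.mem_ofPred_eq, Set.mem_singleton_iff]
  exact ⟨fun ⟨G, h, hx⟩ => hx.trans (key G h), fun hx => ⟨G₀, hG, hx.trans (key G₀ hG).symm⟩⟩

/-- `K_{2,3}` -/
def d6 : Design 5 6 2 :=
  ⟨!![1, 1, 1, 0, 0, 0; 0, 0, 0, 1, 1, 1; 1, 0, 0, 1, 0, 0; 0, 1, 0, 0, 1, 0; 0, 0, 1, 0, 0, 1],
    by decide⟩

/-- blocks `01, 01, 03, 04, 12, 23, 24` -/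
def d7 : Design 5 7 2 :=
  ⟨!![1, 1, 1, 1, 0, 0, 0; 1, 1, 0, 0, 1, 0, 0; 0, 0, 0, 0, 1, 1, 1; 0, 0, 1, 0, 0, 1, 0;
    0, 0, 0, 1, 0, 0, 1], by decide⟩

lemma c6 : conc d6 0 1 = 0 ∧ conc d6 0 2 = 1 ∧ conc d6 0 3 = 1 ∧ conc d6 0 4 = 1 ∧ conc d6 1 2 = 1 ∧
    conc d6 1 3 = 1 ∧ conc d6 1 4 = 1 ∧ conc d6 2 3 = 0 ∧ conc d6 2 4 = 0 ∧ conc d6 3 4 = 0 := by
  decide

lemma c7 : conc d7 0 1 = 2 ∧ conc d7 0 2 = 0 ∧ conc d7 0 3 = 1 ∧ conc d7 0 4 = 1 ∧ conc d7 1 2 = 1 ∧
    conc d7 1 3 = 0 ∧ conc d7 1 4 = 0 ∧ conc d7 2 3 = 1 ∧ conc d7 2 4 = 1 ∧ conc d7 3 4 = 0 := by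
  decide

lemma ev6 : ev E1 d6 = 12 ∧ ev E2 d6 = 51 ∧ ev E3 d6 = 92 ∧ ev E4 d6 = 60 := by
  obtain ⟨h0, h1, h2, h3, h4, h5, h6, h7, h8, h9⟩ := c6
  simp only [ev, h0, h1, h2, h3, h4, h5, h6, h7, h8, h9]
  decide

lemma ev7 : ev E1 d7 = 14 ∧ ev E2 d7 = 68 ∧ ev E3 d7 = 138 ∧ ev E4 d7 = 100 := by
  obtain ⟨h0, h1, h2, h3, h4, h5, h6, h7, h8, h9⟩ := c7
  simp only [ev, h0, h1, h2, h3, h4, h5, h6, h7, h8, h9]
  decide

lemma adj_of (d : Design v b k) (i j : Fin v) (h : i ≠ j) (h' : 0 < conc d i j) :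
    (SimpleGraph.fromRel fun i j => 0 < conc d i j).Reachable i j :=
  SimpleGraph.Adj.reachable ((SimpleGraph.fromRel_adj _ _ _).2 ⟨h, Or.inl h'⟩)

lemma conn6 : Conn d6 := by
  have h2 := adj_of d6 0 2 (by decide) (by decide)
  have h3 := adj_of d6 0 3 (by decide) (by decide)
  have h4 := adj_of d6 0 4 (by decide) (by decide)
  have h1 := h2.trans (adj_of d6 2 1 (by decide) (by decide))
  refine (SimpleGraph.connected_iff_exists_forall_reachable _).2 ⟨0, fun w => ?_⟩
  fin_cases w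
  exacts [.rfl, h1, h2, h3, h4]

lemma conn7 : Conn d7 := by
  have h1 := adj_of d7 0 1 (by decide) (by decide)
  have h3 := adj_of d7 0 3 (by decide) (by decide)
  have h4 := adj_of d7 0 4 (by decide) (by decide)
  have h2 := h1.trans (adj_of d7 1 2 (by decide) (by decide))
  refine (SimpleGraph.connected_iff_exists_forall_reachable _).2 ⟨0, fun w => ?_⟩
  fin_cases w
  exacts [.rfl, h1, h2, h3, h4]

lemma info6 : info d6 = !![3 / 2, 0, -1 / 2, -1 / 2, -1 / 2; 0, 3 / 2, -1 / 2, -1 / 2, -1 / 2;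
    -1 / 2, -1 / 2, 1, 0, 0; -1 / 2, -1 / 2, 0, 1, 0; -1 / 2, -1 / 2, 0, 0, 1] := by
  obtain ⟨h0, h1, h2, h3, h4, h5, h6, h7, h8, h9⟩ := c6
  rw [info5, h0, h1, h2, h3, h4, h5, h6, h7, h8, h9]
  ext i j
  fin_cases i <;> fin_cases j <;> simp <;> norm_num

lemma info7 : info d7 = !![2, -1, 0, -1 / 2, -1 / 2; -1, 3 / 2, -1 / 2, 0, 0;
    0, -1 / 2, 3 / 2, -1 / 2, -1 / 2; -1 / 2, 0, -1 / 2, 1, 0; -1 / 2, 0, -1 / 2, 0, 1] := by
  obtain ⟨h0, h1, h2, h3, h4, h5, h6, h7, h8, h9⟩ := c7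
  rw [info5, h0, h1, h2, h3, h4, h5, h6, h7, h8, h9]
  ext i j
  fin_cases i <;> fin_cases j <;> simp <;> norm_num

lemma g6 : info d6 * !![4 / 3, 2 / 3, 1, 1, 0; 2 / 3, 4 / 3, 1, 1, 0; 1, 1, 2, 1, 0; 1, 1, 1, 2, 0;
    0, 0, 0, 0, 0] * info d6 = info d6 := by
  rw [info6]
  ext i j
  fin_cases i <;> fin_cases j <;> simp [mul_apply, Fin.sum_univ_five] <;> norm_num

lemma g7 : info d7 * !![13 / 10, 11 / 10, 7 / 10, 1, 0; 11 / 10, 17 / 10, 9 / 10, 1, 0;
    7 / 10, 9 / 10, 13 / 10, 1, 0; 1, 1, 1, 2, 0; 0, 0, 0, 0, 0] * info d7 = info d7 := by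
  rw [info7]
  ext i j
  fin_cases i <;> fin_cases j <;> simp [mul_apply, Fin.sum_univ_five] <;> norm_num

theorem result :
    (∃ d : Design 5 6 2, AOpt d ∧ DOpt d ∧ EOpt d ∧ ∃ i j m n : Fin 5, i ≠ j ∧ m ≠ n ∧
      conc d m n < conc d i j ∧ pv d i j = {4 / 3} ∧ pv d m n = {4 / 3}) ∧
    (∃ d : Design 5 7 2, EOpt d ∧ ∃ i j m n : Fin 5, i ≠ j ∧ m ≠ n ∧
      conc d m n < conc d i j ∧ pv d i j = {13 / 10} ∧ pv d m n = {6 / 5}) := by
  obtain ⟨a1, a2, a3, a4⟩ := ev6
  obtain ⟨b1, b2, b3, b4⟩ := ev7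
  refine ⟨⟨d6, ⟨conn6, fun d hd => ?_⟩, ⟨conn6, fun d hd => ?_⟩, ⟨conn6, fun d hd => ?_⟩,
    0, 2, 0, 1, by decide, by decide, by decide, ?_, ?_⟩,
    ⟨d7, ⟨conn7, fun d hd => ?_⟩, 0, 3, 0, 2, by decide, by decide, by decide, ?_, ?_⟩⟩
  · have hp := E4_pos d (by norm_num) hd
    have h := (AD6 d).1
    have hp' : (1 : ℝ) ≤ ev E4 d := by exact_mod_cast hp
    have h' : (23 : ℝ) * ev E4 d ≤ 15 * ev E3 d := by exact_mod_cast h
    rw [A_eq d hp, A_eq d6 (by omega), a3, a4, le_div_iff₀ (by positivity)]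
    push_cast
    linarith
  · have h : (ev E4 d : ℝ) ≤ 60 := by exact_mod_cast (AD6 d).2
    rw [D_eq, D_eq, a4]
    push_cast
    linarith
  · exact (E_le d (by norm_num)).trans (E_ge d6 (by omega) (by omega) (by omega) (by omega))
  · rw [pv_eq d6 0 2 _ g6 ![4 / 3, 2 / 3, 0, 1, 1]]
    · simp
    · rw [info6]; ext i
      fin_cases i <;> simp [mulVec, dotProduct, Fin.sum_univ_five] <;> norm_num
  · rw [pv_eq d6 0 1 _ g6 ![2 / 3, -2 / 3, 0, 0, 0]]
    · simp; norm_num
    · rw [info6]; ext i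
      fin_cases i <;> simp [mulVec, dotProduct, Fin.sum_univ_five] <;> norm_num
  · exact (E_le d (by norm_num)).trans (E_ge d7 (by omega) (by omega) (by omega) (by omega))
  · rw [pv_eq d7 0 3 _ g7 ![3 / 10, 1 / 10, -3 / 10, -1, 0]]
    · simp; norm_num
    · rw [info7]; ext i
      fin_cases i <;> simp [mulVec, dotProduct, Fin.sum_univ_five] <;> norm_num
  · rw [pv_eq d7 0 2 _ g7 ![6 / 10, 2 / 10, -6 / 10, 0, 0]]
    · simp; norm_num
    · rw [info7]; ext i
      fin_cases i <;> simp [mulVec, dotProduct, Fin.sum_univ_five] <;> norm_num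

end Pool.Agent.Results.MP_c32163_co.Counter
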